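import Pool.Agent.KS6_21.LCy.Stage

/-!
# MP_7b0c7a_co: `A'_2(m)` holds exactly for `m ≤ 7`

The number `f'(k)` of the question is the largest `m` for which `A'_k(m)` holds. As the property is
not monotone in `m`, one has to refute `A'_2(m)` for all `m ≥ 8`. This is done with the graphs
obtained from the Petersen graph by replacing one edge by a path.
-/

set_option autoImplicit false

namespace Pool.Agent.Results.MP_7b0c7a_co.ExactlyUpToSeven

/-- `G` is `k`-connected: it has more than `k` vertices, and no set of fewer than `k` vertices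
disconnects it. -/
def KConnected (k : ℕ) {V : Type} [Fintype V] (G : SimpleGraph V) : Prop :=
  k < Fintype.card V ∧ ∀ S : Finset V, S.card < k → (G.induce {x | x ∉ S}).Preconnected

/-- `C` is a longest cycle of `G`. -/
def IsLongestCycle {V : Type} {G : SimpleGraph V} {u : V} (C : G.Walk u u) : Prop :=
  C.IsCycle ∧ ∀ (w : V) (Z : G.Walk w w), Z.IsCycle → Z.length ≤ C.length

/-- The common vertices of two cycles. -/
def common {V : Type} {G : SimpleGraph V} {u v : V} (C : G.Walk u u) (D : G.Walk v v) : Set V :=
  {x | x ∈ C.support ∧ x ∈ D.support}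

/-- `W` is an articulation set: two vertices outside `W` are not joined by a path of `G - W`. -/
def IsArticulation {V : Type} (G : SimpleGraph V) (W : Set V) : Prop :=
  ¬ (G.induce Wᶜ).Preconnected

/-- The property `A'_k(m)`: for every `k`-connected non-Hamiltonian graph whose circumference is
larger than `m`, and any two longest cycles `C`, `D` with at most `m` common vertices, the set of
the common vertices is an articulation set. -/
def AP (k m : ℕ) : Prop :=
  ∀ (V : Type) [Fintype V] [DecidableEq V] (G : SimpleGraph V), KConnected k G →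
    ¬ G.IsHamiltonian → ∀ (u v : V) (C : G.Walk u u) (D : G.Walk v v), IsLongestCycle C →
      IsLongestCycle D → m < C.length → (common C D).ncard ≤ m → IsArticulation G (common C D)

/-- (1) `A'_2(m)` holds if and only if `m ≤ 7`. (2) So `f'(2) = 7`: the largest `m` for which
`A'_2(m)` holds is `7`. (3) `A'_k(m)` holds for all `k ≥ 2` and `m ≤ 7`, and `A'_3(8)` fails. -/
theorem result :
    (∀ m : ℕ, AP 2 m ↔ m ≤ 7) ∧ IsGreatest {m | AP 2 m} 7 ∧
    (∀ k m : ℕ, 2 ≤ k → m ≤ 7 → AP k m) ∧ ¬ AP 3 8 := by
  have h1 : ∀ m : ℕ, AP 2 m ↔ m ≤ 7 := by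
    intro m
    constructor
    · intro h
      by_contra hc
      obtain ⟨t, rfl⟩ : ∃ t, m = 8 + t := ⟨m - 8, by omega⟩
      exact KS6_21.LCy.fails t h
    · intro h
      exact Pool.Agent.Results.MP_7b0c7a_co.LongestCycleArticulation.result.2.2 2 m le_rfl h
  refine ⟨h1, ⟨(h1 7).2 le_rfl, fun m hm => (h1 m).1 hm⟩,
    Pool.Agent.Results.MP_7b0c7a_co.LongestCycleArticulation.result.2.2, ?_⟩
  exact Pool.Agent.Results.MP_7b0c7a_co.LongestCycleArticulation.not_ap le_rfl

end Pool.Agent.Results.MP_7b0c7a_co.ExactlyUpToSeven
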